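import Pool.Agent.H776R2.Grig.Realize
import Pool.Agent.H776R2.Grig.Lower
import Pool.Agent.H776R2.Grig.Upper
import Pool.Agent.H776R2.Grig.Fin1

set_option autoImplicit false

/-!
# The growth function of the first Grigorchuk group is `exp(n^α)`

`G` is the first Grigorchuk group acting on the binary words, `ball n` the number of its elements of
length at most `n` with respect to `a, b, c, d` (definitions in
`Pool/Agent/Results/MP_03d093_al/SphereBall.lean`), `λ ≈ 2.4675` is the positive root of
`x³ = x² + 2x + 4`, and `α = log 2 / log λ ≈ 0.7674`.  We prove that the degree of growth of `G` is the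
class of `n ↦ exp(n^α)`.
-/

namespace Pool.Agent.Results.MP_6985d1_al.ExactGrowth

open Pool.Agent.Results.MP_03d093_al.SphereBall Pool.Agent.H776R2.Grig

theorem alpha_bounds : 3 / 4 < alpha ∧ alpha < 10 / 13 := by
  have h1 : 0 < Real.log lam := Real.log_pos (by linarith [lam_gt])
  have hl : 0 < lam := lam_pos
  constructor
  · unfold alpha
    rw [div_lt_div_iff₀ (by norm_num) h1]
    have h2 : Real.log (lam ^ 3) < Real.log (2 ^ 4) := by
      apply Real.log_lt_log (by positivity)
      nlinarith [lam_eq, lam_lt, lam_gt]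
    rw [Real.log_pow, Real.log_pow] at h2
    push_cast at h2
    linarith
  · unfold alpha
    rw [div_lt_div_iff₀ h1 (by norm_num)]
    have h2 : Real.log (2 ^ 13) < Real.log (lam ^ 10) := by
      apply Real.log_lt_log (by positivity)
      have h : (2.465 : ℝ) ^ 10 ≤ lam ^ 10 := pow_le_pow_left₀ (by norm_num) lam_gt.le 10
      refine lt_of_lt_of_le ?_ h
      norm_num
    rw [Real.log_pow, Real.log_pow] at h2
    push_cast at h2
    linarith

/-- **The degree of growth of the first Grigorchuk group** is `exp(n^α)`, where `α = log 2 / log λ` and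
`λ` is the positive root of `x³ = x² + 2x + 4`: the growth function `ball` (with respect to
`{a, b, c, d}`) and `n ↦ ⌊exp(n^α)⌋` dominate each other in the sense `f n ≤ g (C n)` for all `n`. -/
theorem result :
    (0 < lam ∧ lam ^ 3 = lam ^ 2 + 2 * lam + 4) ∧ (3 / 4 < alpha ∧ alpha < 10 / 13) ∧
    (∃ C : ℕ, 1 ≤ C ∧ ∀ n : ℕ, ⌊Real.exp ((n : ℝ) ^ alpha)⌋₊ ≤ ball (C * n)) ∧
    (∃ C : ℕ, 1 ≤ C ∧ ∀ n : ℕ, ball n ≤ ⌊Real.exp (((C * n : ℕ) : ℝ) ^ alpha)⌋₊) :=
  ⟨⟨lam_pos, lam_eq⟩, alpha_bounds, final_lower (ball_lower_of realize), final_upper ball_upper⟩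

end Pool.Agent.Results.MP_6985d1_al.ExactGrowth
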